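import Mathlib

/-!
For every `n ≥ 1` there is a primitive lattice tiling of some `ℤ^d` with exactly `n` tiles.
-/

namespace Pool.Agent.Results.MP_f7d7fe_co.Exists

/-- A lattice translate: a coset `v + L` of a finite index subgroup `L` of `ℤ^d`. -/
def IsTranslate {d : ℕ} (A : Set (Fin d → ℤ)) : Prop :=
  ∃ (L : AddSubgroup (Fin d → ℤ)) (v : Fin d → ℤ), L.FiniteIndex ∧ A = {x | ∃ y ∈ L, x = v + y}

/-- A lattice tiling of `ℤ^d` with `n` lattice translates. -/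
def IsTiling {d n : ℕ} (t : Fin n → Set (Fin d → ℤ)) : Prop :=
  (∀ i, IsTranslate (t i)) ∧ (∀ i j, i ≠ j → Disjoint (t i) (t j)) ∧ ⋃ i, t i = Set.univ

/-- The tiling splits: the index set is partitioned into `k ≥ 2` nonempty blocks (the fibres of
a surjection `b`), some block has at least two elements, and the union of the tiles in each
block is a lattice translate. -/
def Splits {d n : ℕ} (t : Fin n → Set (Fin d → ℤ)) : Prop :=
  ∃ (k : ℕ) (b : Fin n → Fin k), 2 ≤ k ∧ Function.Surjective b ∧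
    (∃ i j, i ≠ j ∧ b i = b j) ∧ ∀ c, IsTranslate (⋃ i ∈ {i | b i = c}, t i)

/-! ### Labellings of finite abelian groups -/

/-- `S` is closed under `x - y + z` for the labelling `l`. -/
def Closed {G ι : Type} [AddCommGroup G] (l : G → ι) (S : Set ι) : Prop :=
  ∀ x y z, l x ∈ S → l y ∈ S → l z ∈ S → l (x - y + z) ∈ S

structure Good {G ι : Type} [AddCommGroup G] (l : G → ι) : Prop where
  surj : ∀ i, ∃ x, l x = i
  aff : ∀ x y, l y = l x → ∀ z, l z = l x → l (x - y + z) = l x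
  prim : ∀ S : Set ι, Closed l S → S.Subsingleton ∨ S = Set.univ

abbrev Z2 := ZMod 2

abbrev V := Z2 × Z2

def Pointed (n : ℕ) : Prop :=
  ∃ (H ι : Type) (_ : AddCommGroup H) (_ : Finite H) (_ : Fintype ι) (l : V × H → ι) (i₀ : ι),
    Fintype.card ι = n ∧ Good l ∧ ∀ p, l p = i₀ ↔ p.1 = (1, 0)

lemma prim_of_rules {G : Type} [AddCommGroup G] {n : ℕ} (l : G → Fin n) (R : List (G × G × G))
    (Q : List (Fin n × Fin n × Fin n × Fin n))
    (h1 : R.map (fun r => (l r.1, l r.2.1, l r.2.2, l (r.1 - r.2.1 + r.2.2))) = Q)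
    (h2 : ∀ s : Fin n → Bool,
      Q.all (fun q => !s q.1 || !s q.2.1 || !s q.2.2.1 || s q.2.2.2) = true →
        (∀ i j, s i = true → s j = true → i = j) ∨ ∀ i, s i = true) :
    ∀ S : Set (Fin n), Closed l S → S.Subsingleton ∨ S = Set.univ := by
  classical
  intro S hS
  rcases h2 (fun i => decide (i ∈ S)) (by
    subst h1
    rw [List.all_eq_true]
    intro q hq
    obtain ⟨r, _, rfl⟩ := List.mem_map.1 hq
    have := hS r.1 r.2.1 r.2.2
    simp only [Bool.or_eq_true, Bool.not_eq_true', decide_eq_false_iff_not, decide_eq_true_eq]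
    tauto) with h | h
  · left
    intro i hi j hj
    exact h i j (by simpa using hi) (by simpa using hj)
  · right
    exact Set.eq_univ_of_forall fun i => by simpa using h i

def l4 (p : V × (Z2)) : Fin 4 :=
  if p.1 = (1, 0) then 0 else if p.1.2 = 1 ∧ p.2 = 0 then 1 else
    if p.2 = 1 ∧ p.1.1 = 0 then 2 else 3

def R4 : List ((V × (Z2)) × (V × (Z2)) × (V × (Z2))) :=
  [(((0, 0), 0), ((0, 0), 1), ((0, 1), 1)), (((0, 0), 0), ((0, 1), 0), ((1, 1), 0)),
    (((0, 0), 0), ((1, 0), 0), ((1, 0), 1)), (((0, 0), 1), ((0, 1), 0), ((0, 1), 1)),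
    (((0, 0), 1), ((0, 1), 1), ((1, 0), 0)), (((0, 1), 0), ((1, 0), 0), ((1, 0), 1))]

def Q4 : List (Fin 4 × Fin 4 × Fin 4 × Fin 4) :=
  [(3, 2, 2, 1), (3, 1, 1, 0), (3, 0, 0, 2), (2, 1, 2, 3), (2, 2, 0, 1), (1, 0, 0, 2)]

lemma seed4 : Pointed 4 := by
  refine ⟨Z2, Fin 4, inferInstance, inferInstance, inferInstance, l4, 0, by simp,
    ⟨by decide +kernel, by decide +kernel, prim_of_rules l4 R4 Q4 (by decide +kernel)
      (by decide +kernel)⟩, by decide +kernel⟩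

def l6 (p : V × (Z2 × Z2)) : Fin 6 :=
  if p.1 = (1, 0) then 0 else if p.1.2 = 1 ∧ p.2.1 = 0 then 1 else
    if p.2.2 = 0 then (if p.2.1 = 1 ∧ p.1.1 = 0 then 2 else 3) else
      (if p.1.1 = 0 ∧ p.1.2 = p.2.1 then 4 else 5)

def R6 : List ((V × (Z2 × Z2)) × (V × (Z2 × Z2)) × (V × (Z2 × Z2))) :=
  [(((0, 0), 0, 0), ((0, 0), 0, 1), ((0, 1), 1, 1)),
    (((0, 0), 0, 0), ((0, 0), 1, 0), ((0, 1), 1, 0)),
    (((0, 0), 0, 0), ((0, 1), 0, 0), ((0, 1), 0, 1)),
    (((0, 0), 0, 1), ((0, 1), 0, 0), ((0, 1), 0, 1)),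
    (((0, 0), 1, 0), ((0, 0), 1, 1), ((1, 1), 1, 1)),
    (((0, 0), 1, 0), ((0, 1), 0, 0), ((0, 1), 0, 1)),
    (((0, 0), 1, 1), ((1, 0), 0, 0), ((1, 0), 0, 1)),
    (((0, 0), 0, 1), ((0, 0), 1, 0), ((0, 1), 1, 0)),
    (((0, 0), 0, 1), ((0, 1), 1, 1), ((1, 1), 1, 1)),
    (((0, 0), 0, 0), ((0, 0), 1, 1), ((1, 1), 1, 0)),
    (((0, 0), 0, 0), ((1, 0), 0, 0), ((1, 0), 0, 1)),
    (((0, 0), 0, 1), ((0, 1), 1, 1), ((1, 0), 0, 0)),
    (((0, 0), 1, 0), ((0, 1), 1, 0), ((1, 0), 0, 0)),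
    (((0, 0), 1, 1), ((0, 1), 0, 0), ((0, 1), 0, 1)),
    (((0, 1), 0, 0), ((1, 0), 0, 0), ((1, 0), 1, 0))]

def Q6 : List (Fin 6 × Fin 6 × Fin 6 × Fin 6) :=
  [(3, 4, 4, 2), (3, 2, 2, 1), (3, 1, 1, 4), (4, 1, 1, 3), (2, 5, 5, 3), (2, 1, 1, 5),
    (5, 0, 0, 2), (4, 2, 2, 1), (4, 4, 5, 0), (3, 5, 3, 1), (3, 0, 0, 4), (4, 4, 0, 3),
    (2, 2, 0, 1), (5, 1, 1, 2), (1, 0, 0, 2)]

lemma seed6 : Pointed 6 := by
  refine ⟨Z2 × Z2, Fin 6, inferInstance, inferInstance, inferInstance, l6, 0, by simp,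
    ⟨by decide +kernel, by decide +kernel, prim_of_rules l6 R6 Q6 (by decide +kernel)
      (by decide +kernel)⟩, by decide +kernel⟩

def l8 (p : V × (Z2 × Z2 × Z2)) : Fin 8 :=
  if p.1 = (1, 0) then 0 else if p.1.2 = 1 ∧ p.2.1 = 0 then 1 else
    if p.2.2.2 = 1 then (if p.2.1 = 1 ∧ p.1.1 = 0 then 6 else 7) else
    if p.2.2.1 = 0 then (if p.2.1 = 1 ∧ p.1.1 = 0 then 2 else 3) else
      (if p.1.1 = 0 ∧ p.1.2 = p.2.1 then 4 else 5)

def R8 : List ((V × (Z2 × Z2 × Z2)) × (V × (Z2 × Z2 × Z2)) × (V × (Z2 × Z2 × Z2))) :=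
  [(((0, 0), 0, 0, 0), ((0, 0), 0, 0, 1), ((0, 0), 0, 1, 1)),
    (((0, 0), 0, 0, 0), ((0, 0), 0, 1, 0), ((0, 1), 1, 1, 0)),
    (((0, 0), 0, 0, 1), ((0, 0), 0, 1, 0), ((0, 0), 0, 1, 1)),
    (((0, 0), 1, 0, 0), ((0, 1), 0, 0, 1), ((0, 1), 1, 0, 0)),
    (((0, 0), 0, 0, 0), ((0, 0), 1, 0, 0), ((0, 1), 1, 0, 0)),
    (((0, 0), 1, 0, 1), ((0, 0), 1, 1, 1), ((1, 1), 1, 1, 0)),
    (((0, 0), 1, 0, 1), ((0, 1), 1, 0, 1), ((1, 0), 1, 1, 0)),
    (((0, 0), 1, 1, 0), ((1, 0), 0, 0, 0), ((1, 0), 0, 0, 1)),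
    (((0, 0), 0, 0, 1), ((0, 1), 0, 0, 0), ((1, 1), 0, 0, 0)),
    (((0, 0), 0, 0, 0), ((0, 0), 1, 0, 1), ((0, 0), 1, 1, 1)),
    (((0, 1), 0, 0, 0), ((1, 0), 0, 0, 0), ((1, 0), 1, 0, 1)),
    (((0, 0), 0, 0, 1), ((0, 0), 0, 1, 1), ((0, 1), 1, 0, 0)),
    (((0, 0), 0, 1, 0), ((0, 0), 1, 0, 0), ((0, 1), 1, 0, 0)),
    (((0, 0), 0, 1, 0), ((0, 1), 0, 0, 0), ((0, 1), 0, 0, 1)),
    (((0, 0), 0, 0, 0), ((0, 1), 0, 0, 0), ((0, 1), 0, 0, 1)),
    (((0, 0), 0, 0, 0), ((0, 0), 1, 1, 0), ((1, 1), 1, 0, 0)),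
    (((0, 0), 0, 0, 0), ((1, 0), 0, 0, 0), ((1, 0), 0, 0, 1)),
    (((0, 0), 0, 0, 1), ((0, 0), 0, 1, 1), ((0, 0), 1, 1, 0)),
    (((0, 0), 0, 0, 1), ((0, 0), 1, 0, 1), ((0, 1), 1, 0, 1)),
    (((0, 0), 0, 0, 1), ((1, 0), 0, 0, 0), ((1, 0), 0, 0, 1)),
    (((0, 0), 0, 1, 0), ((0, 0), 1, 0, 1), ((0, 0), 1, 1, 1)),
    (((0, 0), 0, 1, 0), ((0, 0), 1, 1, 0), ((0, 1), 1, 1, 0)),
    (((0, 0), 0, 1, 0), ((0, 1), 1, 1, 0), ((1, 0), 0, 0, 0)),
    (((0, 0), 1, 0, 0), ((0, 0), 1, 0, 1), ((0, 0), 1, 1, 1)),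
    (((0, 0), 1, 0, 0), ((0, 0), 1, 1, 0), ((0, 1), 1, 0, 0)),
    (((0, 0), 1, 0, 0), ((0, 1), 1, 0, 0), ((1, 0), 0, 0, 0)),
    (((0, 0), 1, 0, 1), ((0, 1), 0, 0, 0), ((0, 1), 0, 0, 1)),
    (((0, 0), 1, 1, 0), ((0, 1), 0, 0, 0), ((0, 1), 0, 0, 1))]

def Q8 : List (Fin 8 × Fin 8 × Fin 8 × Fin 8) :=
  [(3, 7, 7, 4), (3, 4, 4, 2), (7, 4, 7, 3), (2, 1, 2, 7), (3, 2, 2, 1), (6, 6, 5, 3),
    (6, 6, 0, 5), (5, 0, 0, 6), (7, 1, 1, 0), (3, 6, 6, 4), (1, 0, 0, 6), (7, 7, 2, 4),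
    (4, 2, 2, 1), (4, 1, 1, 7), (3, 1, 1, 7), (3, 5, 3, 1), (3, 0, 0, 7), (7, 7, 5, 2),
    (7, 6, 6, 1), (7, 0, 0, 3), (4, 6, 6, 3), (4, 5, 4, 1), (4, 4, 0, 3), (2, 6, 6, 5),
    (2, 5, 2, 4), (2, 2, 0, 1), (6, 1, 1, 2), (5, 1, 1, 6)]

lemma seed8 : Pointed 8 := by
  refine ⟨Z2 × Z2 × Z2, Fin 8, inferInstance, inferInstance, inferInstance, l8, 0, by simp,
    ⟨by decide +kernel, by decide +kernel, prim_of_rules l8 R8 Q8 (by decide +kernel)
      (by decide +kernel)⟩, by decide +kernel⟩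


lemma good4 : Good l4 :=
  ⟨by decide +kernel, by decide +kernel, prim_of_rules l4 R4 Q4 (by decide +kernel)
      (by decide +kernel)⟩

section step

variable {H ι : Type} [AddCommGroup H]

/-- How the four tiles of `l4` are labelled in the enlarged labelling. -/
def emb (i₀ : ι) : Fin 4 → ι ⊕ Fin 3 := ![Sum.inl i₀, Sum.inr 0, Sum.inr 1, Sum.inr 2]

/-- The enlarged labelling, with three more tiles. -/
def lstep (l : V × H → ι) (i₀ : ι) (p : V × (H × Z2 × Z2)) : ι ⊕ Fin 3 :=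
  if p.2.2.2 = 0 then Sum.inl (l (p.1, p.2.1)) else emb i₀ (l4 (p.1, p.2.2.1))

lemma emb_inj (i₀ : ι) : Function.Injective (emb i₀) := by
  intro a b h
  fin_cases a <;> fin_cases b <;> simp_all [emb]

lemma emb_eq_inl {i₀ i : ι} {a : Fin 4} (h : emb i₀ a = Sum.inl i) : a = 0 ∧ i = i₀ := by
  fin_cases a <;> simp_all [emb]

omit [AddCommGroup H] in
lemma lstep_zero (l : V × H → ι) (i₀ : ι) (v : V) (h : H) (c : Z2) :
    lstep l i₀ (v, h, c, 0) = Sum.inl (l (v, h)) := by simp [lstep]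

omit [AddCommGroup H] in
lemma lstep_one (l : V × H → ι) (i₀ : ι) (v : V) (h : H) (c : Z2) :
    lstep l i₀ (v, h, c, 1) = emb i₀ (l4 (v, c)) := by
  have : (1 : Z2) ≠ 0 := by decide
  simp [lstep, this]

lemma l4_zero : ∀ p : V × Z2, l4 p = 0 ↔ p.1 = (1, 0) := by decide +kernel

lemma l4_shift : ∀ (v : V) (c : Z2), l4 (v, c) ≠ 0 → l4 (v, c + 1) ≠ l4 (v, c) := by
  decide +kernel

lemma Z2_cases : ∀ s : Z2, s = 0 ∨ s = 1 := by decide

omit [AddCommGroup H] in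
lemma lstep_base {l : V × H → ι} {i₀ : ι} (h0 : ∀ p, l p = i₀ ↔ p.1 = (1, 0))
    (p : V × (H × Z2 × Z2)) : lstep l i₀ p = Sum.inl i₀ ↔ p.1 = (1, 0) := by
  obtain ⟨v, h, c, s⟩ := p
  rcases Z2_cases s with rfl | rfl
  · rw [lstep_zero, Sum.inl.injEq, h0]
  · rw [lstep_one, ← l4_zero (v, c)]
    exact ⟨fun h => (emb_eq_inl h).1, fun h => by rw [h]; rfl⟩

lemma good_step {l : V × H → ι} {i₀ : ι} (hl : Good l) (h0 : ∀ p, l p = i₀ ↔ p.1 = (1, 0)) :
    Good (lstep l i₀) := by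
  have hsurj : ∀ i, ∃ x, lstep l i₀ x = i := by
    rintro (i | j)
    · obtain ⟨⟨v, h⟩, rfl⟩ := hl.surj i
      exact ⟨(v, h, 0, 0), lstep_zero _ _ _ _ _⟩
    · obtain ⟨⟨v, c⟩, h⟩ := good4.surj j.succ
      refine ⟨(v, 0, c, 1), ?_⟩
      rw [lstep_one, h]
      fin_cases j <;> rfl
  have e1 : (0 : Z2) - 0 + 0 = 0 := by decide
  have e2 : (1 : Z2) - 1 + 1 = 1 := by decide
  refine ⟨hsurj, ?_, ?_⟩
  · intro x y hy z hz
    by_cases hx : lstep l i₀ x = Sum.inl i₀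
    · rw [hx] at hy hz ⊢
      rw [lstep_base h0] at hx hy hz ⊢
      rw [Prod.fst_add, Prod.fst_sub, hx, hy, hz]
      simp
    · obtain ⟨v1, h1, c1, s1⟩ := x
      obtain ⟨v2, h2, c2, s2⟩ := y
      obtain ⟨v3, h3, c3, s3⟩ := z
      simp only [Prod.mk_sub_mk, Prod.mk_add_mk]
      rcases Z2_cases s1 with rfl | rfl
      · rw [lstep_zero] at hx hy hz
        rcases Z2_cases s2 with rfl | rfl
        · rcases Z2_cases s3 with rfl | rfl
          · rw [lstep_zero, Sum.inl.injEq] at hy hz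
            rw [e1, lstep_zero, lstep_zero, Sum.inl.injEq]
            exact hl.aff (v1, h1) (v2, h2) hy (v3, h3) hz
          · rw [lstep_one] at hz
            exact absurd (congrArg Sum.inl (emb_eq_inl hz).2) hx
        · rw [lstep_one] at hy
          exact absurd (congrArg Sum.inl (emb_eq_inl hy).2) hx
      · rw [lstep_one] at hx hy hz
        rcases Z2_cases s2 with rfl | rfl
        · rw [lstep_zero] at hy
          have := emb_eq_inl hy.symm
          rw [this.1] at hx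
          exact absurd rfl hx
        · rcases Z2_cases s3 with rfl | rfl
          · rw [lstep_zero] at hz
            have := emb_eq_inl hz.symm
            rw [this.1] at hx
            exact absurd rfl hx
          · rw [lstep_one] at hy hz
            rw [e2, lstep_one, lstep_one]
            exact congrArg _ (good4.aff (v1, c1) (v2, c2) (emb_inj _ hy) (v3, c3) (emb_inj _ hz))
  · intro S hS
    have hA : Closed l (Sum.inl ⁻¹' S) := by
      rintro ⟨v1, h1⟩ ⟨v2, h2⟩ ⟨v3, h3⟩ k1 k2 k3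
      have := hS (v1, h1, 0, 0) (v2, h2, 0, 0) (v3, h3, 0, 0) (by rwa [lstep_zero])
        (by rwa [lstep_zero]) (by rwa [lstep_zero])
      simp only [Prod.mk_sub_mk, Prod.mk_add_mk] at this
      rwa [e1, lstep_zero] at this
    have hB : Closed l4 (emb i₀ ⁻¹' S) := by
      rintro ⟨v1, c1⟩ ⟨v2, c2⟩ ⟨v3, c3⟩ k1 k2 k3
      have := hS (v1, 0, c1, 1) (v2, 0, c2, 1) (v3, 0, c3, 1) (by rwa [lstep_one])
        (by rwa [lstep_one]) (by rwa [lstep_one])
      simp only [Prod.mk_sub_mk, Prod.mk_add_mk] at this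
      rwa [e2, lstep_one] at this
    have b0 : ∀ s, lstep l i₀ ((1, 0), 0, 0, s) = Sum.inl i₀ := fun s =>
      (lstep_base h0 _).2 rfl
    -- if the base tile is in `S`, then `S` is invariant under switching layers
    have hsw : Sum.inl i₀ ∈ S → ∀ v h c s s', lstep l i₀ (v, h, c, s) ∈ S →
        lstep l i₀ (v, h, c, s') ∈ S := by
      intro hi v h c s s' hs
      have := hS (v, h, c, s) ((1, 0), 0, 0, s) ((1, 0), 0, 0, s') hs (by rwa [b0])
        (by rwa [b0])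
      simpa using this
    have huniv : (Sum.inl ⁻¹' S = Set.univ ∨ emb i₀ ⁻¹' S = Set.univ) → S = Set.univ := by
      intro hu
      have hi : Sum.inl i₀ ∈ S := by
        rcases hu with hu | hu
        · exact (Set.eq_univ_iff_forall.1 hu) i₀
        · exact (Set.eq_univ_iff_forall.1 hu) 0
      refine Set.eq_univ_of_forall fun i => ?_
      obtain ⟨⟨v, h, c, s⟩, rfl⟩ := hsurj i
      rcases hu with hu | hu
      · refine hsw hi v h c 0 s ?_
        rw [lstep_zero]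
        exact (Set.eq_univ_iff_forall.1 hu) _
      · refine hsw hi v h c 1 s ?_
        rw [lstep_one]
        exact (Set.eq_univ_iff_forall.1 hu) _
    rcases hl.prim _ hA with hA1 | hA1
    swap
    · exact Or.inr (huniv (Or.inl hA1))
    rcases good4.prim _ hB with hB1 | hB1
    swap
    · exact Or.inr (huniv (Or.inr hB1))
    left
    have hmix : ∀ i j, Sum.inl i ∈ S → Sum.inr j ∈ S → False := by
      intro i j hi hj
      obtain ⟨⟨v, h⟩, rfl⟩ := hl.surj i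
      obtain ⟨⟨w, c⟩, hw⟩ := good4.surj j.succ
      have hj' : emb i₀ (l4 (w, c)) ∈ S := by
        rw [hw]
        fin_cases j <;> exact hj
      have := hS (w, 0, c, 1) (v, h, 0, 0) (v, h, 1, 0) (by rwa [lstep_one])
        (by rwa [lstep_zero]) (by rwa [lstep_zero])
      simp only [Prod.mk_sub_mk, Prod.mk_add_mk, sub_add_cancel, sub_zero, add_zero] at this
      rw [lstep_one] at this
      exact l4_shift w c (by rw [hw]; exact Fin.succ_ne_zero j) (hB1 this hj')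
    rintro (i | j) hi (i' | j') hi'
    · exact congrArg _ (hA1 hi hi')
    · exact (hmix _ _ hi hi').elim
    · exact (hmix _ _ hi' hi).elim
    · have : j.succ = j'.succ := by
        refine hB1 ?_ ?_
        · fin_cases j <;> exact hi
        · fin_cases j' <;> exact hi'
      rw [Fin.succ_inj.1 this]

end step

lemma pointed_step {n : ℕ} (h : Pointed n) : Pointed (n + 3) := by
  obtain ⟨H, ι, _, _, _, l, i₀, hc, hl, h0⟩ := h
  exact ⟨H × Z2 × Z2, ι ⊕ Fin 3, inferInstance, inferInstance, inferInstance, lstep l i₀,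
    Sum.inl i₀, by simp [hc], good_step hl h0, lstep_base h0⟩

lemma pointed_iter {n : ℕ} (h : Pointed n) (k : ℕ) : Pointed (n + 3 * k) := by
  induction k with
  | zero => exact h
  | succ k ih => exact pointed_step ih

def HasGood (n : ℕ) : Prop :=
  ∃ (G : Type) (_ : AddCommGroup G) (_ : Finite G) (l : G → Fin n), Good l

lemma hasGood_of_pointed {n : ℕ} (h : Pointed n) : HasGood n := by
  obtain ⟨H, ι, _, _, _, l, i₀, hc, hl, -⟩ := h
  let e : ι ≃ Fin n := Fintype.equivFinOfCardEq hc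
  refine ⟨V × H, inferInstance, inferInstance, fun p => e (l p), fun i => ?_, ?_, ?_⟩
  · obtain ⟨x, hx⟩ := hl.surj (e.symm i)
    exact ⟨x, by simp [hx]⟩
  · intro x y hy z hz
    exact congrArg e (hl.aff x y (e.injective hy) z (e.injective hz))
  · intro S hS
    rcases hl.prim (e ⁻¹' S) hS with h | h
    · left
      intro i hi j hj
      exact e.symm.injective (h (by simpa using hi) (by simpa using hj))
    · right
      refine Set.eq_univ_of_forall fun i => ?_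
      simpa using (Set.eq_univ_iff_forall.1 h) (e.symm i)

lemma hasGood_small (m : ℕ)
    (h2 : ∀ s : Fin (m + 1) → Bool, (∀ x y z, s x = true → s y = true → s z = true →
      s (x - y + z) = true) → (∀ i j, s i = true → s j = true → i = j) ∨ ∀ i, s i = true) :
    HasGood (m + 1) := by
  classical
  refine ⟨Fin (m + 1), inferInstance, inferInstance, id, fun i => ⟨i, rfl⟩, ?_, ?_⟩
  · intro x y hy z hz
    simp only [id] at hy hz ⊢
    rw [hy, hz]
    simp
  · intro S hS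
    rcases h2 (fun i => decide (i ∈ S)) (fun x y z => by simpa using hS x y z) with h | h
    · left
      intro i hi j hj
      exact h i j (by simpa using hi) (by simpa using hj)
    · right
      exact Set.eq_univ_of_forall fun i => by simpa using h i

lemma hasGood {n : ℕ} (hn : 1 ≤ n) : HasGood n := by
  by_cases h1 : n = 1
  · subst h1; exact hasGood_small 0 (by decide +kernel)
  by_cases h2 : n = 2
  · subst h2; exact hasGood_small 1 (by decide +kernel)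
  by_cases h3 : n = 3
  · subst h3; exact hasGood_small 2 (by decide +kernel)
  by_cases h5 : n = 5
  · subst h5; exact hasGood_small 4 (by decide +kernel)
  apply hasGood_of_pointed
  have : (∃ k, n = 4 + 3 * k) ∨ (∃ k, n = 6 + 3 * k) ∨ ∃ k, n = 8 + 3 * k := by
    have : n % 3 = 0 ∨ n % 3 = 1 ∨ n % 3 = 2 := by omega
    rcases this with h | h | h
    · exact Or.inr (Or.inl ⟨(n - 6) / 3, by omega⟩)
    · exact Or.inl ⟨(n - 4) / 3, by omega⟩
    · exact Or.inr (Or.inr ⟨(n - 8) / 3, by omega⟩)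
  rcases this with ⟨k, rfl⟩ | ⟨k, rfl⟩ | ⟨k, rfl⟩
  · exact pointed_iter seed4 k
  · exact pointed_iter seed6 k
  · exact pointed_iter seed8 k

lemma translate_closed {d : ℕ} {A : Set (Fin d → ℤ)} (h : IsTranslate A) {x y z : Fin d → ℤ}
    (hx : x ∈ A) (hy : y ∈ A) (hz : z ∈ A) : x - y + z ∈ A := by
  obtain ⟨L, v, -, rfl⟩ := h
  obtain ⟨a, ha, rfl⟩ := hx
  obtain ⟨b, hb, rfl⟩ := hy
  obtain ⟨c, hc, rfl⟩ := hz
  exact ⟨a - b + c, L.add_mem (L.sub_mem ha hb) hc, by abel⟩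

/-- For every `n ≥ 1` there are `d ≥ 1` and a primitive lattice tiling of `ℤ^d` with exactly
`n` lattice translates. -/
theorem result (n : ℕ) (hn : 1 ≤ n) :
    ∃ d : ℕ, 1 ≤ d ∧ ∃ t : Fin n → Set (Fin d → ℤ), IsTiling t ∧ ¬ Splits t := by
  obtain ⟨G, _, _, l, hl⟩ := hasGood hn
  obtain ⟨m, f, hf⟩ := Module.Finite.exists_fin' ℤ G
  let π : (Fin (m + 1) → ℤ) →+ G :=
    (f.comp (LinearMap.funLeft ℤ ℤ (Fin.succ : Fin m → Fin (m + 1)))).toAddMonoidHom
  have hπ : Function.Surjective π :=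
    hf.comp (LinearMap.funLeft_surjective_of_injective ℤ ℤ _ (Fin.succ_injective m))
  refine ⟨m + 1, by omega, fun i => {x | l (π x) = i}, ⟨fun i => ?_, ?_, ?_⟩, ?_⟩
  · obtain ⟨g, hg⟩ := hl.surj i
    obtain ⟨v, rfl⟩ := hπ g
    let L : AddSubgroup (Fin (m + 1) → ℤ) :=
      { carrier := {y | l (π (v + y)) = l (π v)}
        zero_mem' := by simp
        add_mem' := by
          intro a b ha hb
          have ha' : l (π (v + a)) = l (π v) := ha
          have hb' : l (π (v + b)) = l (π v) := hb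
          have := hl.aff (π (v + a)) (π v) ha'.symm (π (v + b)) (hb'.trans ha'.symm)
          rw [← map_sub, ← map_add, ha'] at this
          have e : v + a - v + (v + b) = v + (a + b) := by abel
          rwa [e] at this
        neg_mem' := by
          intro a ha
          have ha' : l (π (v + a)) = l (π v) := ha
          have := hl.aff (π v) (π (v + a)) ha' (π v) rfl
          rw [← map_sub, ← map_add] at this
          have e : v - (v + a) + v = v + -a := by abel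
          rwa [e] at this }
    have hker : π.ker ≤ L := by
      intro y hy
      have hy' : π y = 0 := hy
      change l (π (v + y)) = l (π v)
      rw [map_add, hy', add_zero]
    have : π.ker.FiniteIndex := AddSubgroup.finiteIndex_ker π
    refine ⟨L, v, AddSubgroup.finiteIndex_of_le hker, ?_⟩
    ext x
    constructor
    · intro hx
      have hx' : l (π x) = i := hx
      refine ⟨x - v, ?_, by abel⟩
      change l (π (v + (x - v))) = l (π v)
      rw [add_sub_cancel, hx', hg]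
    · rintro ⟨y, hy, rfl⟩
      have hy' : l (π (v + y)) = l (π v) := hy
      exact hy'.trans hg
  · intro i j hij
    rw [Set.disjoint_left]
    intro x hi hj
    exact hij ((Eq.symm hi).trans hj)
  · exact Set.eq_univ_of_forall fun x => Set.mem_iUnion.2 ⟨l (π x), rfl⟩
  · rintro ⟨k, b, hk, hb, ⟨i, j, hij, hbij⟩, hT⟩
    have hmem : ∀ c x, x ∈ (⋃ i ∈ {i | b i = c}, {x | l (π x) = i}) ↔ b (l (π x)) = c := by
      intro c x
      simp
    have hcl : Closed l {a | b a = b i} := by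
      intro x y z hx hy hz
      obtain ⟨x, rfl⟩ := hπ x
      obtain ⟨y, rfl⟩ := hπ y
      obtain ⟨z, rfl⟩ := hπ z
      have := translate_closed (hT (b i)) ((hmem _ x).2 hx) ((hmem _ y).2 hy) ((hmem _ z).2 hz)
      rw [hmem, map_add, map_sub] at this
      exact this
    rcases hl.prim _ hcl with h | h
    · exact hij (h rfl hbij.symm)
    · obtain ⟨a0, h0⟩ := hb ⟨0, by omega⟩
      obtain ⟨a1, h1⟩ := hb ⟨1, by omega⟩
      have e0 : b a0 = b i := (Set.eq_univ_iff_forall.1 h) a0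
      have e1 : b a1 = b i := (Set.eq_univ_iff_forall.1 h) a1
      have := (h0.symm.trans e0).trans (h1.symm.trans e1).symm
      simp at this

end Pool.Agent.Results.MP_f7d7fe_co.Exists
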